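import Mathlib
import Pool.Agent.H168Z.WC.Alt
import Pool.Agent.H168Z.WC.Full

set_option autoImplicit false

open scoped InnerProductSpace

namespace Pool.Agent.Results.MP_4da108_an.WeakNotCentral

open Pool.Agent.H168Z.WC

/-- `u` is a homomorphism from `G` to the unitary group of `B`. -/
def IsURep {G B : Type*} [Group G] [CStarAlgebra B] (u : G → B) : Prop :=
  (∀ g, u g ∈ unitary B) ∧ u 1 = 1 ∧ ∀ g h, u (g * h) = u g * u h

/-- `f` is a unital *-homomorphism of C*-algebras. -/
def IsHom {A B : Type*} [CStarAlgebra A] [CStarAlgebra B] (f : A → B) : Prop :=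
  ∃ φ : A →⋆ₐ[ℂ] B, ∀ a, f a = φ a

/-- `(A, u)` is the full group C*-algebra of the discrete group `G`: the unitaries `u g` span a
dense subspace and every unitary representation of `G` in a C*-algebra extends to `A`. -/
def IsFull {G : Type} [Group G] {A : Type 1} [CStarAlgebra A] (u : G → A) : Prop :=
  IsURep u ∧ Dense (Submodule.span ℂ (Set.range u) : Set A) ∧
    ∀ (B : Type) [CStarAlgebra B] (π : G → B), IsURep π →
      ∃ f : A → B, IsHom f ∧ ∀ g, f (u g) = π g

/-- A set of operators without non-trivial closed invariant subspace. -/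
def Irred {H : Type} [NormedAddCommGroup H] [InnerProductSpace ℂ H] (S : Set (H →L[ℂ] H)) :
    Prop :=
  ∀ W : Submodule ℂ H, IsClosed (W : Set H) → (∀ T ∈ S, ∀ w ∈ W, T w ∈ W) → W = ⊥ ∨ W = ⊤

/-- `P` is a primitive ideal: the kernel of an irreducible *-representation on a non-zero
Hilbert space. -/
def IsPrim (A : Type 1) [CStarAlgebra A] (P : Set A) : Prop :=
  ∃ (H : Type) (_ : NormedAddCommGroup H) (_ : InnerProductSpace ℂ H) (_ : CompleteSpace H)
    (_ : Nontrivial H) (f : A → (H →L[ℂ] H)), IsHom f ∧ Irred (Set.range f) ∧ P = {a | f a = 0}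

/-- A unital C*-algebra is central if primitive ideals are determined by their intersection with
the centre. -/
def Central (A : Type 1) [CStarAlgebra A] : Prop :=
  ∀ P Q : Set A, IsPrim A P → IsPrim A Q → P ∩ Set.center A = Q ∩ Set.center A → P = Q

/-- A unital C*-algebra is weakly central if maximal two-sided ideals are determined by their
intersection with the centre and none of them contains the centre. -/
def WeaklyCentral (A : Type 1) [CStarAlgebra A] : Prop :=
  (∀ M N : TwoSidedIdeal A, IsCoatom M → IsCoatom N →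
    (M : Set A) ∩ Set.center A = (N : Set A) ∩ Set.center A → M = N) ∧
  ∀ M : TwoSidedIdeal A, IsCoatom M → ¬ Set.center A ⊆ (M : Set A)

theorem result :
    ∃ (G : Type) (_ : Group G) (_ : TopologicalSpace G), DiscreteTopology G ∧ Countable G ∧
      ∃ (A : Type 1) (_ : CStarAlgebra A) (u : G → A),
        IsFull u ∧ WeaklyCentral A ∧ ¬ Central A := by
  obtain ⟨A, inst, u, hd, hl⟩ := exists_full Alt
  refine ⟨Alt, inferInstance, ⊥, discreteTopology_bot _, alt_countable, A, inst, fun g => u g,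
    ⟨⟨fun g => (u g).2, by simp, by simp⟩, hd, fun B _ π hπ => ?_⟩, ?_⟩
  · obtain ⟨φ, hφ⟩ := hl B
      { toFun := fun g => ⟨π g, hπ.1 g⟩
        map_one' := Subtype.ext hπ.2.1
        map_mul' := fun g h => Subtype.ext (hπ.2.2 g h) }
    exact ⟨φ, ⟨φ, fun _ => rfl⟩, hφ⟩
  obtain ⟨ε, hε⟩ := hl (ℂ →L[ℂ] ℂ) 1
  obtain ⟨σ, hσ⟩ := hl (Ell →L[ℂ] Ell) permRep
  let U : Alt →* A := (unitary A).subtype.comp u
  let e : A →ₗ[ℂ] ℂ :=
    { toFun := fun a => ε a 1
      map_add' := fun a b => by simp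
      map_smul' := fun c a => by simp }
  have he1 : ∀ g, e (U g) = 1 := fun g => by
    show ε (u g) 1 = 1
    rw [hε]
    rfl
  have he2 : ∀ a, ‖e a‖ ≤ ‖a‖ := fun a => by
    have h1 := (ε a).le_opNorm 1
    rw [norm_one, mul_one] at h1
    exact h1.trans (NonUnitalStarAlgHom.norm_apply_le ε a)
  have he3 : ∀ a, e a = 0 → ε a = 0 := fun a h => by
    ext
    exact h
  have key : ∀ I : TwoSidedIdeal A, I ≠ ⊤ → I ≤ TwoSidedIdeal.ker ε := fun I hI x hx =>
    (TwoSidedIdeal.mem_ker _).2 (he3 x (ideal_le_aug U hd e he1 he2 I hI hx))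
  have hker : TwoSidedIdeal.ker ε ≠ ⊤ := fun h => by
    have h1 := (TwoSidedIdeal.mem_ker _).1 ((TwoSidedIdeal.one_mem_iff _).2 h)
    rw [map_one] at h1
    exact one_ne_zero h1
  have hmax : ∀ M : TwoSidedIdeal A, IsCoatom M → M = TwoSidedIdeal.ker ε := fun M hM =>
    ((hM.le_iff.1 (key M hM.1)).resolve_left hker).symm
  have hdl : dl 0 ≠ 0 := fun h => by
    have := dl_apply 0 0
    rw [h] at this
    simp at this
  have hnt : Nontrivial Ell := ⟨dl 0, 0, hdl⟩
  have hscal : ∀ S : Ell →L[ℂ] Ell, (∀ a, S * σ a = σ a * S) → ∃ c : ℂ, S = c • 1 := fun S hS =>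
    commutant S fun g => by
      have := hS (u g)
      rw [hσ] at this
      exact this
  refine ⟨⟨fun M N hM hN _ => (hmax M hM).trans (hmax N hN).symm, fun M hM h =>
    hM.1 ((TwoSidedIdeal.one_mem_iff _).1 (h Set.one_mem_center))⟩, fun hC => ?_⟩
  have hP : IsPrim A {a | ε a = 0} :=
    ⟨ℂ, inferInstance, inferInstance, inferInstance, inferInstance, ε, ⟨ε, fun _ => rfl⟩,
      fun W _ _ => eq_bot_or_eq_top W, rfl⟩
  have hQ : IsPrim A {a | σ a = 0} := by
    refine ⟨Ell, inferInstance, inferInstance, inferInstance, hnt, σ, ⟨σ, fun _ => rfl⟩,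
      fun W hW hinv' => ?_, rfl⟩
    have hinv : ∀ a : A, ∀ w ∈ W, σ a w ∈ W := fun a => hinv' _ ⟨a, rfl⟩
    have : CompleteSpace W := hW.completeSpace_coe
    obtain ⟨c, hc⟩ := hscal W.starProjection fun a => by
      ext1 x
      show W.starProjection (σ a x) = σ a (W.starProjection x)
      refine Submodule.eq_starProjection_of_mem_orthogonal
        (hinv a _ (W.starProjection_apply_mem x)) ?_
      rw [← map_sub, Submodule.mem_orthogonal]
      intro w hw
      rw [← ContinuousLinearMap.adjoint_inner_left, ← ContinuousLinearMap.star_eq_adjoint,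
        ← map_star]
      exact Submodule.inner_right_of_mem_orthogonal (hinv _ w hw)
        (W.sub_starProjection_mem_orthogonal x)
    by_cases h0 : c = 0
    · left
      rw [Submodule.eq_bot_iff]
      intro w hw
      rw [← Submodule.starProjection_eq_self_iff.2 hw, hc, h0]
      simp
    · right
      rw [Submodule.eq_top_iff']
      intro x
      have h1 := W.smul_mem c⁻¹ (W.starProjection_apply_mem x)
      rw [hc] at h1
      simpa [smul_smul, h0] using h1
  have hσε : ∀ a, σ a = 0 → ε a = 0 := fun a ha => by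
    have h1 : TwoSidedIdeal.ker σ ≠ ⊤ := fun h => by
      have h1 := (TwoSidedIdeal.mem_ker _).1 ((TwoSidedIdeal.one_mem_iff _).2 h)
      rw [map_one] at h1
      exact one_ne_zero h1
    exact (TwoSidedIdeal.mem_ker _).1 (key _ h1 ((TwoSidedIdeal.mem_ker _).2 ha))
  have hPQ := hC _ _ hP hQ (by
    ext z
    simp only [Set.mem_inter_iff, Set.mem_ofPred_eq]
    refine ⟨fun h => ⟨?_, h.2⟩, fun h => ⟨hσε z h.1, h.2⟩⟩
    obtain ⟨c, hc⟩ := hscal (σ z) fun a => by
      rw [← map_mul, ← map_mul, (h.2.comm a).eq]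
    have h1 := hσε (z - c • 1) (by rw [map_sub, map_smul, map_one, hc, sub_self])
    rw [map_sub, map_smul, map_one, h.1, zero_sub, neg_eq_zero] at h1
    have h2 : c = 0 := by simpa using congrArg (fun T : ℂ →L[ℂ] ℂ => T 1) h1
    rw [hc, h2, zero_smul])
  let g : Alt := gen 0 1 2 3 (by omega) (by omega)
  have h1 : ((u g⁻¹ : A) - 1) ∈ {a | ε a = 0} := by
    show ε _ = 0
    rw [map_sub, map_one, hε]
    simp
  rw [hPQ] at h1
  have h2 : σ ((u g⁻¹ : A) - 1) = 0 := h1
  rw [map_sub, map_one, hσ, sub_eq_zero] at h2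
  have h3 := congrArg (fun T : Ell →L[ℂ] Ell => T (dl 0) 0) h2
  have h4 : dl 0 ((Equiv.swap 0 1 * Equiv.swap 2 3 : Equiv.Perm ℕ) 0) = dl 0 0 := h3
  rw [dl_apply, dl_apply] at h4
  simp [Equiv.swap_apply_def] at h4

end Pool.Agent.Results.MP_4da108_an.WeakNotCentral
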